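import Pool.Agent.W477.GM.Stms

set_option maxHeartbeats 1000000
set_option linter.all false

namespace Pool.Agent.W477.GM.Sq3W701

open Pool.Agent.W477.GM

section gen

variable {P : Type 1} [PartialOrder P] [OrderTop P]

theorem feq_same {ι : Type} (U W : ι → P → Prop) (x y : ι → Nm P) (p : P)
    (hlab : ∀ i q, q ≤ p → (Lab (U i) q ↔ Lab (W i) q))
    (hx : ∀ i q, q ≤ p → feq (x i) (y i) q) : feq (.mk ι U x) (.mk ι W y) p := by
  unfold feq
  exact ⟨fun i q hq hL => ⟨q, le_rfl, i, (hlab i q hq).1 hL, hx i q hq⟩,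
    fun j q hq hL => ⟨q, le_rfl, j, (hlab j q hq).2 hL, hx j q hq⟩⟩

theorem lab_act (g : P ≃o P) (U : P → Prop) (q : P) :
    Lab (fun u => U (g.symm u)) q ↔ Lab U (g.symm q) := by
  constructor
  · rintro ⟨u, hu, hq⟩
    exact ⟨g.symm u, hu, g.symm.monotone hq⟩
  · rintro ⟨u, hu, hq⟩
    refine ⟨g u, ?_, g.symm_apply_le.1 hq⟩
    simpa using hu

end gen

theorem pj_top : pj ⊤ = ⊤ := rfl

theorem pj_rs (K : J → Prop) (q : QQ) : pj (rs K q) = rs K (pj q) := rfl

theorem rs_len {C : Type} {L : C → ℕ∞} [PartialOrder C] [OrderTop C] (K : J → Prop) (p : Cn C L)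
    (j : J) (h : K j) : (rs K p).len j = p.len j := if_pos h

theorem rs_len' {C : Type} {L : C → ℕ∞} [PartialOrder C] [OrderTop C] (K : J → Prop) (p : Cn C L)
    (j : J) (h : ¬ K j) : (rs K p).len j = 0 := if_neg h

theorem rs_bit {C : Type} {L : C → ℕ∞} [PartialOrder C] [OrderTop C] (K : J → Prop) (p : Cn C L)
    (j : J) (h : K j) (o) : (rs K p).bit j o = p.bit j o := if_pos h

theorem rs_rs {C : Type} {L : C → ℕ∞} [PartialOrder C] [OrderTop C] (K : J → Prop)
    (p : Cn C L) : rs K (rs K p) = rs K p := by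
  refine Cn.ext' rfl ?_ ?_
  · intro j
    by_cases h : K j
    · exact rs_len K _ j h
    · rw [rs_len' K _ j h, rs_len' K _ j h]
  · intro j o ho
    by_cases h : K j
    · exact rs_bit K _ j h o
    · rw [rs_len' K _ j h] at ho
      exact absurd ho not_lt_zero'

theorem le_rs {C : Type} {L : C → ℕ∞} [PartialOrder C] [OrderTop C] (K : J → Prop)
    (p : Cn C L) : p ≤ rs K p := by
  refine ⟨le_rfl, fun j => ?_⟩
  by_cases h : K j
  · rw [rs_len K p j h]
    exact ⟨le_rfl, fun o _ => (rs_bit K p j h o).symm⟩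
  · rw [rs_len' K p j h]
    exact ⟨zero_le, fun o ho => absurd ho not_lt_zero'⟩

/-- the label -/
def XL (β : Ordinal.{0}) (n : ℕ) (e : Bool) (z : Ib β → Bool) (i : Ib β) (p : PP) : Prop :=
  rs (fun j => j.1 < β + 1) p = p ∧ ov i < p.len (β, n, e) ∧
    xor (p.bit (β, n, e) (ov i)) (z i) = true

theorem lab_x (β : Ordinal.{0}) (n : ℕ) (e : Bool) (z : Ib β → Bool) (i : Ib β) (q : QQ) :
    Lab (fun u => XL β n e z i (pj u)) q ↔
      ov i < q.len (β, n, e) ∧ xor (q.bit (β, n, e) (ov i)) (z i) = true := by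
  constructor
  · rintro ⟨u, ⟨_, hu1, hu2⟩, hq⟩
    have h1 : ov i < u.len (β, n, e) := hu1
    refine ⟨lt_of_lt_of_le h1 (hq.2 _).1, ?_⟩
    rw [(hq.2 _).2 _ h1]
    exact hu2
  · rintro ⟨h1, h2⟩
    have hK : (fun j : J => j.1 < β + 1) (β, n, e) := by
      show β < β + 1
      exact Order.lt_succ β
    refine ⟨rs (fun j => j.1 < β + 1) q, ⟨?_, ?_, ?_⟩, le_rs _ q⟩
    · rw [pj_rs, rs_rs]
    · show ov i < (rs (fun j => j.1 < β + 1) q).len (β, n, e)
      rw [rs_len (fun j : J => j.1 < β + 1) q _ hK]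
      exact h1
    · show xor ((rs (fun j => j.1 < β + 1) q).bit (β, n, e) (ov i)) (z i) = true
      rw [rs_bit (fun j : J => j.1 < β + 1) q _ hK]
      exact h2

/-- canonical names -/
theorem chk_act (h : P_EQ) (h1 : P_ACT) (hl : P_LIFT) (g : QQ ≃o QQ) (a : PSet.{0}) (q : QQ) :
    feq (act g (lift (chk a))) (chk a) q := by
  have e1 := hl.chk a (g.symm q)
  have e2 := ((h1 QQ).feq g (lift (chk a)) (chk a) (g.symm q)).2 e1
  rw [(h1 QQ).chk, OrderIso.apply_symm_apply] at e2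
  exact e2

/-- ordered pairs -/
theorem op_act (h1 : P_ACT) (hl : P_LIFT) (g : QQ ≃o QQ) (x y : Nm PP) (q : QQ) :
    feq (act g (lift (opN x y))) (opN (act g (lift x)) (act g (lift y))) q := by
  have e1 := hl.op x y (g.symm q)
  have e2 := ((h1 QQ).feq g _ _ (g.symm q)).2 e1
  rw [(h1 QQ).op, OrderIso.apply_symm_apply] at e2
  exact e2

/-- the classes of the generic sets -/
theorem a_act (h : P_EQ) (h1 : P_ACT) (hl : P_LIFT) (on : Ordinal.{0} → PSet.{0})
    (β : Ordinal.{0}) (n : ℕ) (e e' : Bool) (g : QQ ≃o QQ) (r : QQ)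
    (hg : ∀ q, q ≤ r → (g.symm q).len (β, n, e) = q.len (β, n, e') ∧
      ∀ o, (g.symm q).bit (β, n, e) o = q.bit (β, n, e') o) :
    feq (act g (lift (aN on β n e))) (lift (aN on β n e')) r := by
  unfold aN
  unfold lift
  unfold act
  refine feq_same _ _ _ _ _ ?_ ?_
  · intro z q hq
    constructor
    · intro _
      exact ⟨⊤, rfl, le_top⟩
    · intro _
      refine ⟨⊤, ?_, le_top⟩
      show pj (g.symm ⊤) = ⊤
      rw [OrderIso.map_top]
      rfl
  · intro z q hq
    unfold xN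
    unfold lift
    unfold act
    refine feq_same _ _ _ _ _ ?_ ?_
    · intro i q' hq'
      have e1 := lab_act g (fun u => XL β n e z i (pj u)) q'
      have e2 := lab_x β n e z i (g.symm q')
      have e3 := lab_x β n e' z i q'
      obtain ⟨g1, g2⟩ := hg q' (hq'.trans hq)
      rw [g1, g2] at e2
      exact e1.trans (e2.trans e3.symm)
    · intro i q' hq'
      exact (h QQ).trans _ _ _ _ (chk_act h h1 hl g _ q') ((h QQ).symm _ _ _ (hl.chk _ q'))

theorem rank_ofNat (n : ℕ) : (PSet.ofNat n : PSet.{0}).rank = (n : Ordinal.{0}) := by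
  induction n with
  | zero => simp [PSet.ofNat]
  | succ n ih =>
    show (insert (PSet.ofNat n) (PSet.ofNat n)).rank = _
    rw [PSet.rank_insert, ih]
    have : (n : Ordinal.{0}) ≤ Order.succ (n : Ordinal.{0}) := Order.le_succ _
    rw [max_eq_left this]
    simp

theorem ofNat_inj {n m : ℕ} (h : (PSet.ofNat n : PSet.{0}).Equiv (PSet.ofNat m : PSet.{0})) :
    n = m := by
  have h1 := PSet.rank_congr h
  rw [rank_ofNat, rank_ofNat] at h1
  exact_mod_cast h1

theorem getD_ext {q r : QQ} (hqr : q ≤ r) {n : ℕ} (hn : n < r.c.l.length) :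
    q.c.l.getD n false = r.c.l.getD n false := by
  have h1 : r.c.l <+: q.c.l := hqr.1
  obtain ⟨l, hl⟩ := h1
  rw [← hl, List.getD_append _ _ _ _ hn]

theorem len_ext {q r : QQ} (hqr : q ≤ r) : r.c.l.length ≤ q.c.l.length := by
  have h1 : r.c.l <+: q.c.l := hqr.1
  exact h1.length_le

theorem swp_eq (c : Str) (β : Ordinal.{0}) (n : ℕ) :
    swp c β (β, n, false) = (β, n, c.l.getD n false) := by
  unfold swp
  cases h : c.l.getD n false
  · simp [h]
  · simp [h]

theorem seq3_holds (h : P_EQ) (h1 : P_ACT) (h2 : P_PR) (hl : P_LIFT) (h5 : P_SEQ2)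
    (hc : P_CAX) : P_SEQ3 := by
  intro on hon β s hs hss n t ht htt r hn hF
  have ssym : ∀ q, s.symm q = s q := fun q => by
    rw [OrderIso.symm_apply_eq]
    exact (congrArg (fun g : QQ ≃o QQ => g q) hss).symm
  have tsym : ∀ q, t.symm q = t q := fun q => by
    rw [OrderIso.symm_apply_eq]
    exact (congrArg (fun g : QQ ≃o QQ => g q) htt).symm
  have tssym : ∀ q, (t * s).symm q = s (t q) := fun q => by
    rw [OrderIso.symm_apply_eq]
    show q = t (s (s (t q)))
    have e1 : s (s (t q)) = t q := congrArg (fun g : QQ ≃o QQ => g (t q)) hss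
    have e2 : t (t q) = q := congrArg (fun g : QQ ≃o QQ => g q) htt
    rw [e1, e2]
  -- the two computations
  have ha : ∀ r' : QQ, r' ≤ r → feq (act s (lift (aN on β n false)))
      (lift (aN on β n (r.c.l.getD n false))) r' := by
    intro r' hr'
    apply a_act h h1 hl
    intro q hq
    rw [ssym]
    have e1 := (hs q).2 (β, n, false)
    rw [swp_eq, getD_ext (hq.trans hr') hn] at e1
    exact e1
  have hb : ∀ r' : QQ, r' ≤ r → feq (act (t * s) (lift (aN on β n false)))
      (lift (aN on β n (!(r.c.l.getD n false)))) r' := by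
    intro r' hr'
    apply a_act h h1 hl
    intro q hq
    rw [tssym]
    have e1 := (hs (t q)).2 (β, n, false)
    obtain ⟨t1, t2, t3, t4⟩ := ht q
    have e2 : (t q).c.l.getD n false = !(r.c.l.getD n false) := by
      rw [t4 n (lt_of_lt_of_le hn (len_ext (hq.trans hr'))), if_pos rfl,
        getD_ext (hq.trans hr') hn]
    rw [swp_eq, e2, t1, t2] at e1
    exact e1
  -- the child number `n`
  rw [← (h1 QQ).mul t s] at hF
  unfold sN at hF
  unfold lift at hF
  unfold act at hF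
  unfold feq at hF
  obtain ⟨r', hr', m, hm, hF'⟩ := hF.1 n r le_rfl (by
    refine ⟨⊤, ?_, le_top⟩
    show pj (s.symm ⊤) = ⊤
    rw [OrderIso.map_top]
    rfl)
  have f1 := op_act h1 hl s (chk (PSet.ofNat n)) (aN on β n false) r'
  have f2 := op_act h1 hl (t * s) (chk (PSet.ofNat m)) (aN on β m false) r'
  have f3 := (h QQ).trans _ _ _ _ ((h QQ).symm _ _ _ f1) ((h QQ).trans _ _ _ _ hF' f2)
  obtain ⟨f4, f5⟩ := ((h2 QQ).op _ _ _ _ _).1 f3
  have f6 := (h QQ).trans _ _ _ _ ((h QQ).symm _ _ _ (chk_act h h1 hl s (PSet.ofNat n) r'))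
    ((h QQ).trans _ _ _ _ f4 (chk_act h h1 hl (t * s) (PSet.ofNat m) r'))
  have f7 := ofNat_inj (((h2 QQ).chk_eq _ _ _).1 f6)
  subst f7
  have f8 := (h QQ).trans _ _ _ _ ((h QQ).symm _ _ _ (ha r' hr'))
    ((h QQ).trans _ _ _ _ f5 (hb r' hr'))
  have f9 := (hl.feq _ _ _).1 f8
  cases hd : r.c.l.getD n false
  · rw [hd] at f9
    exact h5 on hon β n (pj r') f9
  · rw [hd] at f9
    exact h5 on hon β n (pj r') ((h PP).symm _ _ _ f9)

end Pool.Agent.W477.GM.Sq3W701
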